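import Pool.Agent.BCoreK.SsK

/-!
B-CORE, version H (helper37): the hypothesis `K <= Y^4 R U V` is replaced by the weaker
`K H <= Y^4 R U^2 V^2` (the modulus `Pi` is divisible by `r lcm (u1 v1) (u2 v2)` and
`g = gcd (u1 v1) (u2 v2) <= H`). Module SS.
-/

namespace Pool.Agent.BCoreH

open Pool.Agent.BCore Pool.Agent.BCoreK

theorem SS_pi_geH {R U V r u1 u2 v1 v2 w1 w2 g : ℕ} (hr : R < r) (hu1 : U ≤ u1) (hu2 : U ≤ u2)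
    (hv1 : V < v1) (hv2 : V < v2) (hsq1 : Squarefree (r * (u1 * v1)))
    (hsq2 : Squarefree (r * (u2 * v2))) (hg : Nat.gcd (u1 * v1) (u2 * v2) = g)
    (hpos : 0 < Pi6 r u1 u2 v1 v2 w1 w2) :
    R * U ^ 2 * V ^ 2 ≤ g * Pi6 r u1 u2 v1 v2 w1 w2 := by
  have hco1 : Nat.Coprime u1 v1 :=
    Nat.coprime_of_squarefree_mul (hsq1.squarefree_of_dvd (Dvd.intro_left r rfl))
  have hco2 : Nat.Coprime u2 v2 :=
    Nat.coprime_of_squarefree_mul (hsq2.squarefree_of_dvd (Dvd.intro_left r rfl))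
  have h1 : u1 * v1 ∣ Nat.lcm (Nat.lcm u1 u2) (Nat.lcm (Nat.lcm v1 v2) (Nat.lcm w1 w2)) := by
    apply hco1.mul_dvd_of_dvd_of_dvd
    · exact (Nat.dvd_lcm_left u1 u2).trans (Nat.dvd_lcm_left _ _)
    · exact ((Nat.dvd_lcm_left v1 v2).trans (Nat.dvd_lcm_left _ _)).trans (Nat.dvd_lcm_right _ _)
  have h2 : u2 * v2 ∣ Nat.lcm (Nat.lcm u1 u2) (Nat.lcm (Nat.lcm v1 v2) (Nat.lcm w1 w2)) := by
    apply hco2.mul_dvd_of_dvd_of_dvd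
    · exact (Nat.dvd_lcm_right u1 u2).trans (Nat.dvd_lcm_left _ _)
    · exact ((Nat.dvd_lcm_right v1 v2).trans (Nat.dvd_lcm_left _ _)).trans (Nat.dvd_lcm_right _ _)
  have h3 : r * Nat.lcm (u1 * v1) (u2 * v2) ∣ Pi6 r u1 u2 v1 v2 w1 w2 :=
    Nat.mul_dvd_mul_left r (Nat.lcm_dvd h1 h2)
  have h4 : r * Nat.lcm (u1 * v1) (u2 * v2) ≤ Pi6 r u1 u2 v1 v2 w1 w2 := Nat.le_of_dvd hpos h3
  have e1 := Nat.gcd_mul_lcm (u1 * v1) (u2 * v2)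
  rw [hg] at e1
  calc R * U ^ 2 * V ^ 2 = R * ((U * V) * (U * V)) := by ring
    _ ≤ r * ((u1 * v1) * (u2 * v2)) :=
        Nat.mul_le_mul hr.le (Nat.mul_le_mul (Nat.mul_le_mul hu1 hv1.le)
          (Nat.mul_le_mul hu2 hv2.le))
    _ = r * (g * Nat.lcm (u1 * v1) (u2 * v2)) := by rw [e1]
    _ = g * (r * Nat.lcm (u1 * v1) (u2 * v2)) := by ring
    _ ≤ g * Pi6 r u1 u2 v1 v2 w1 w2 := Nat.mul_le_mul_left _ h4

theorem ss_boundH : ∃ C : ℝ, 0 < C ∧ ∀ (N R U V H Z : ℕ) (K B Y T : ℝ) (a b1 b2 : ℤ)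
    (r u1 u2 v1 v2 w1 w2 g e1 e2 : ℕ) (l h h' : ℤ),
    1 ≤ R → 1 ≤ U → 1 ≤ V → 1 ≤ H → H ≤ N → 0 < K → K ≤ N → K ^ 3 = R * U ^ 2 * V ^ 4 →
    1 ≤ B → 0 ≤ Y → K * B ≤ Y ^ 2 * N → K * H ≤ Y ^ 4 * (R * U ^ 2 * V ^ 2) →
    2 ^ 10 * R * U ^ 2 * V ^ 4 * H * N ≤ Z → (∀ m : ℕ, 1 ≤ m → m ≤ Z → (tau m : ℝ) ≤ T) →
    1 + Real.log Z ≤ T →
    r ∈ Finset.Ioc R (2 * R) → u1 ∈ Finset.Icc U (2 * U) → u2 ∈ Finset.Icc U (2 * U) →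
    v1 ∈ Finset.Ioc V (2 * V) → v2 ∈ Finset.Ioc V (2 * V) →
    w1 ∈ Finset.Ioc V (2 * V) → w2 ∈ Finset.Ioc V (2 * V) →
    Good a b1 b2 r u1 v1 u2 v2 → Good a b1 b2 r u1 w1 u2 w2 →
    Nat.gcd (u1 * v1) (u2 * v2) = g → Nat.gcd (u1 * w1) (u2 * w2) = g → g ≤ H →
    e1 = Nat.gcd g u1 → e2 = Nat.gcd g u2 →
    (∀ t : ℝ, K ≤ 16 * H * V ^ 4 * t → t ≤ K →
      ∃ r1 : ℕ, r1 ∣ r * u1 ∧ (r1 : ℝ) ≤ t ∧ t ≤ B ^ 2 * r1) →
    h * (w1 * w2) - h' * (v1 * v2) ≠ 0 →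
    ‖∑ n ∈ Finset.Icc (1 : ℤ) N, W a b1 b2 r l (u1 * v1) (u2 * v2) h n *
        (starRingEnd ℂ) (W a b1 b2 r l (u1 * w1) (u2 * w2) h' n)‖ ≤
      C * T ^ 3 * N * Y *
        ((Int.gcd (h * (w1 * w2) - h' * (v1 * v2)) (r : ℤ) : ℝ) *
          (Int.gcd (h * (w1 * w2) - h' * (v1 * v2)) ((u1 / e1 : ℕ) : ℤ) : ℝ) *
          (Int.gcd (h * (w1 * w2) - h' * (v1 * v2)) ((u2 / e2 : ℕ) : ℤ) : ℝ)) := by
  obtain ⟨C, hC, hvdc⟩ := vdc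
  refine ⟨14 * C + 1, by linarith, ?_⟩
  intro N R U V H Z K B Y T a b1 b2 r u1 u2 v1 v2 w1 w2 g e1 e2 l h h' hR hU hV hH hHN hK hKN hK3
    hB hY hKB hKY hZ htau hlogZ hr hu1 hu2 hv1 hv2 hw1 hw2 hG hG' hg hg' hgH he1 he2 hwin hD
  rw [Finset.mem_Ioc] at hr hv1 hv2 hw1 hw2
  rw [Finset.mem_Icc] at hu1 hu2
  have hv1' : 0 < v1 := lt_of_le_of_lt (Nat.zero_le _) hv1.1
  have hv2' : 0 < v2 := lt_of_le_of_lt (Nat.zero_le _) hv2.1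
  have hw1' : 0 < w1 := lt_of_le_of_lt (Nat.zero_le _) hw1.1
  have hw2' : 0 < w2 := lt_of_le_of_lt (Nat.zero_le _) hw2.1
  have hu1' : 0 < u1 := lt_of_lt_of_le hU hu1.1
  have hu2' : 0 < u2 := lt_of_lt_of_le hU hu2.1
  have hr' : 0 < r := lt_of_le_of_lt (Nat.zero_le _) hr.1
  have hgpos : 0 < g := by
    rw [← hg]; exact Nat.gcd_pos_of_pos_left _ (Nat.mul_pos hu1' hv1')
  have hkap_pos : 0 < kap g v1 v2 w1 w2 := by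
    unfold kap
    exact Nat.lcm_pos hgpos (Nat.lcm_pos (Nat.lcm_pos hv1' hv2') (Nat.lcm_pos hw1' hw2'))
  have hkap_le := SS_kap_le (V := V) (H := H) hv1.2 hv2.2 hw1.2 hw2.2 hgH
  set kp := kap g v1 v2 w1 w2 with hkp
  have hkpR : (0 : ℝ) < kp := by exact_mod_cast hkap_pos
  have hkp1 : (1 : ℝ) ≤ kp := by exact_mod_cast hkap_pos
  obtain ⟨r1, hr1d, hr1t, htr1⟩ := hwin (K / kp) (by
      have h1 : (kp : ℝ) ≤ 16 * H * V ^ 4 := by exact_mod_cast hkap_le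
      have h2 : K = kp * (K / kp) := by field_simp
      calc K = kp * (K / kp) := h2
        _ ≤ 16 * H * V ^ 4 * (K / kp) :=
            mul_le_mul_of_nonneg_right h1 (by positivity)) (div_le_self hK.le hkp1)
  have hr1pos : 0 < r1 := Nat.pos_of_dvd_of_pos hr1d (Nat.mul_pos hr' hu1')
  set k := Nat.lcm r1 kp with hk
  have hkapk : kap g v1 v2 w1 w2 ∣ k := Nat.dvd_lcm_right _ _
  have hkpi : k ∣ Pi6 r u1 u2 v1 v2 w1 w2 := by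
    obtain ⟨-, m2, -, -, -⟩ := moduli hG.1 hG.2.1 hG'.1 hG'.2.1 hg hg' (one_dvd r)
    rw [one_mul] at m2
    apply Nat.lcm_dvd
    · refine hr1d.trans ?_
      unfold Pi6
      exact mul_dvd_mul dvd_rfl ((Nat.dvd_lcm_left u1 u2).trans (Nat.dvd_lcm_left _ _))
    · exact m2
  obtain ⟨L, G, c, l0, hkL, hco, hLsq, hGper, hG1, hgcd, hW⟩ :=
    phaseK (l := l) hG hG' hg hg' hkapk hkpi h h'
  have hkpos : 0 < k := Nat.lcm_pos hr1pos hkap_pos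
  have hLpos : 0 < L := Nat.pos_of_ne_zero hLsq.ne_zero
  have hkle : k ≤ r1 * kp := Nat.le_of_dvd (Nat.mul_pos hr1pos hkap_pos) (Nat.lcm_dvd_mul _ _)
  have hkge : r1 * kp ≤ g * k := by
    have h1 := gcd_dvd_g hG hG' hg hg' hr1d
    have h2 := Nat.le_of_dvd hgpos h1
    calc r1 * kp = Nat.gcd r1 kp * k := (Nat.gcd_mul_lcm r1 kp).symm
      _ ≤ g * k := Nat.mul_le_mul_right _ h2
  have hkK : (k : ℝ) ≤ K := by
    rw [le_div_iff₀ hkpR] at hr1t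
    have h1 : (k : ℝ) ≤ r1 * kp := by exact_mod_cast hkle
    exact h1.trans hr1t
  have hKk : K ≤ B ^ 2 * ((g : ℝ) * k) := by
    rw [div_le_iff₀ hkpR] at htr1
    have h1 : (r1 : ℝ) * kp ≤ g * k := by exact_mod_cast hkge
    calc K ≤ B ^ 2 * r1 * kp := htr1
      _ = B ^ 2 * ((r1 : ℝ) * kp) := by ring
      _ ≤ B ^ 2 * ((g : ℝ) * k) := mul_le_mul_of_nonneg_left h1 (sq_nonneg B)
  have hPpos : 0 < Pi6 r u1 u2 v1 v2 w1 w2 := by rw [← hkL]; exact Nat.mul_pos hkpos hLpos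
  have hPle : Pi6 r u1 u2 v1 v2 w1 w2 ≤ 128 * (R * U ^ 2 * V ^ 4) :=
    SS_pi_le hr.2 hu1.2 hu2.2 hv1.2 hv2.2 hw1.2 hw2.2
  have hPge : R * U ^ 2 * V ^ 2 ≤ g * Pi6 r u1 u2 v1 v2 w1 w2 :=
    SS_pi_geH hr.1 hu1.1 hu2.1 hv1.1 hv2.1 hG.1 hG.2.1 hg hPpos
  have hkL_le : ((g : ℝ) * k) * L ≤ 128 * K ^ 3 := by
    rw [hK3]
    have h0 := g_pi_le hr.2 hu1.2 hu2.2 hv1.2 hv2.2 hw1.2 hw2.2 hg hr' hu1' hu2' hv1' hv2' hw1' hw2'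
    rw [← hkL, ← mul_assoc] at h0
    exact_mod_cast h0
  have hHR : (0 : ℝ) < H := by exact_mod_cast hH
  have hkL_ge : (R : ℝ) * U ^ 2 * V ^ 2 / H ≤ (k : ℝ) * L := by
    rw [div_le_iff₀ hHR]
    have h0 : R * U ^ 2 * V ^ 2 ≤ k * L * H := by
      rw [hkL]
      calc R * U ^ 2 * V ^ 2 ≤ g * Pi6 r u1 u2 v1 v2 w1 w2 := hPge
        _ ≤ H * Pi6 r u1 u2 v1 v2 w1 w2 := Nat.mul_le_mul_right _ hgH
        _ = Pi6 r u1 u2 v1 v2 w1 w2 * H := Nat.mul_comm _ _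
    exact_mod_cast h0
  have hKY' : K ≤ Y ^ 4 * ((R : ℝ) * U ^ 2 * V ^ 2 / H) := by
    rw [← mul_div_assoc, le_div_iff₀ hHR]
    exact hKY
  have hLZ : L ≤ Z := by
    have h1 : L ≤ Pi6 r u1 u2 v1 v2 w1 w2 := by
      rw [← hkL]; exact Nat.le_mul_of_pos_left L hkpos
    have h2 : 128 * (R * U ^ 2 * V ^ 4) ≤ 2 ^ 10 * R * U ^ 2 * V ^ 4 * H * N := by
      have hN1 : 1 ≤ H * N := Nat.mul_pos hH (lt_of_lt_of_le hH hHN)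
      calc 128 * (R * U ^ 2 * V ^ 4) ≤ 2 ^ 10 * (R * U ^ 2 * V ^ 4) :=
            Nat.mul_le_mul_right _ (by norm_num)
        _ = 2 ^ 10 * (R * U ^ 2 * V ^ 4) * 1 := by ring
        _ ≤ 2 ^ 10 * (R * U ^ 2 * V ^ 4) * (H * N) := Nat.mul_le_mul_left _ hN1
        _ = 2 ^ 10 * R * U ^ 2 * V ^ 4 * H * N := by ring
    exact (h1.trans hPle).trans (h2.trans hZ)
  have hL1R : (1 : ℝ) ≤ L := by exact_mod_cast hLpos
  have hlogL : 1 + Real.log L ≤ T := by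
    have : Real.log L ≤ Real.log Z :=
      Real.log_le_log (by linarith) (by exact_mod_cast hLZ)
    linarith
  have hT1 : 1 ≤ T := by
    have := Real.log_nonneg hL1R
    linarith
  set D : ℤ := h * (w1 * w2) - h' * (v1 * v2) with hDdef
  have hgg := SS_gcdK hD hkapk hkL hco hLsq he1 he2 hgpos
  have hgg1 : (1 : ℝ) ≤ (Int.gcd c (L : ℤ) : ℕ) := by
    rw [hgcd]
    have : 0 < Int.gcd D (L : ℤ) := Int.gcd_pos_of_ne_zero_left _ hD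
    exact_mod_cast this
  have hkN : k ≤ N := by
    have : (k : ℝ) ≤ N := hkK.trans hKN
    exact_mod_cast this
  have hv := hvdc k L N G c l0 0 hLsq hco hkpos hkN hGper hG1
  have hset : Finset.Ioc (0 : ℤ) (0 + (N : ℤ)) = Finset.Icc (1 : ℤ) N := by
    ext x
    rw [Finset.mem_Ioc, Finset.mem_Icc]
    omega
  rw [hset] at hv
  have hsum : ∑ n ∈ Finset.Icc (1 : ℤ) N, W a b1 b2 r l (u1 * v1) (u2 * v2) h n *
        (starRingEnd ℂ) (W a b1 b2 r l (u1 * w1) (u2 * w2) h' n) =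
      ∑ n ∈ Finset.Icc (1 : ℤ) N, G n * KL L c (n + l0) :=
    Finset.sum_congr rfl (fun n _ => hW n)
  rw [hsum]
  have hfin := SS_anaK (RUV := (R : ℝ) * U ^ 2 * V ^ 2 / H) hC (Nat.cast_nonneg N) hK hB hY hKB hKY' hT1 hL1R
    (Nat.cast_nonneg k) hkK (by positivity : (0 : ℝ) ≤ (g : ℝ) * k) hKk hkL_le hkL_ge (Nat.cast_nonneg (tau L))
    (htau L hLpos hLZ) hlogL hgg1 hv
  set S := ‖∑ n ∈ Finset.Icc (1 : ℤ) N, G n * KL L c (n + l0)‖ with hS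
  set gg : ℝ := ((Int.gcd c (L : ℤ) : ℕ) : ℝ) with hggdef
  have hbase : 0 ≤ T ^ 3 * N * Y * gg := by positivity
  have h1 : S ^ 2 ≤ ((14 * C + 1) * (T ^ 3 * N * Y * gg)) ^ 2 := by
    rw [mul_pow]
    refine hfin.trans (mul_le_mul_of_nonneg_right ?_ (sq_nonneg _))
    nlinarith
  have h2 : S ≤ (14 * C + 1) * (T ^ 3 * N * Y * gg) :=
    (pow_le_pow_iff_left₀ (norm_nonneg _) (by positivity) two_ne_zero).1 h1
  refine h2.trans ?_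
  have h3 : gg ≤ (Int.gcd D (r : ℤ) : ℝ) * (Int.gcd D ((u1 / e1 : ℕ) : ℤ) : ℝ) *
      (Int.gcd D ((u2 / e2 : ℕ) : ℤ) : ℝ) := by
    rw [hggdef, hgcd]
    exact_mod_cast hgg
  calc (14 * C + 1) * (T ^ 3 * N * Y * gg) = (14 * C + 1) * T ^ 3 * N * Y * gg := by ring
    _ ≤ _ := mul_le_mul_of_nonneg_left h3 (by positivity)

end Pool.Agent.BCoreH
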