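import Pool.Agent.BCore.Fix
import Pool.Agent.BCoreH.SsH

/-!
B-CORE, version H (helper37), module FIX: helper12's proof with the window hypothesis for
`r * u1` and the hypothesis `K H <= Y^4 R U^2 V^2`.
-/

namespace Pool.Agent.BCoreH

open Pool.Agent.BCore Pool.Agent.BCoreK

theorem fix_boundH : ∃ (C : ℝ) (c0 : ℕ), 0 < C ∧ ∀ (N R U V H Z : ℕ) (K B Y E T : ℝ) (a b1 b2 : ℤ)
    (β : ℤ → ℂ) (w : ℕ → ℤ → ℕ → ℕ → ℕ → ℕ → ℤ → ℂ) (g e1 e2 : ℕ),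
    1 ≤ R → 1 ≤ U → 1 ≤ V → 1 ≤ H → H ≤ N → 0 < K → K ≤ N → K ^ 3 = R * U ^ 2 * V ^ 4 →
    1 ≤ B → 0 ≤ Y → K * B ≤ Y ^ 2 * N → K * H ≤ Y ^ 4 * (R * U ^ 2 * V ^ 2) →
    0 ≤ E → (H : ℝ) ≤ E ^ 2 * V ^ 2 → (H : ℝ) ^ 2 * Y ≤ E ^ 2 →
    2 ^ 10 * R * U ^ 2 * V ^ 4 * H * N ≤ Z → (∀ m : ℕ, 1 ≤ m → m ≤ Z → (tau m : ℝ) ≤ T) →
    1 + Real.log Z ≤ T → (∀ n, ‖β n‖ ≤ 1) → (∀ r l u1 v1 u2 v2 h, ‖w r l u1 v1 u2 v2 h‖ ≤ 1) →
    (∀ r l u1 v1 u2 v2 h, w r l u1 v1 u2 v2 h ≠ 0 → Good a b1 b2 r u1 v1 u2 v2 ∧ Win H V K B (r * u1)) →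
    1 ≤ g → g ≤ H → e1 ∣ g → e2 ∣ g →
    ‖TotG N R U V H β a b1 b2 w g e1 e2‖ * g ^ 2 ≤
      C * T ^ c0 * (N : ℝ) ^ 2 * (U : ℝ) ^ 2 * (V : ℝ) ^ 2 * E := by
  classical
  obtain ⟨C1, hC1, hss⟩ := ss_boundH
  refine ⟨23329 + 629856 * C1, 3, by positivity, ?_⟩
  intro N R U V H Z K B Y E T a b1 b2 β w g e1 e2 hR hU hV hH hHN hK hKN hK3 hB hY hKB hKY hE hHE
    hHY hZ hT hlog hβ hw1 hwG hg hgH he1 he2
  have hG : ∀ r l u1 v1 u2 v2 h, w r l u1 v1 u2 v2 h ≠ 0 → Good a b1 b2 r u1 v1 u2 v2 :=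
    fun r l u1 v1 u2 v2 h hw => (hwG r l u1 v1 u2 v2 h hw).1
  have hgN : g ≤ N := hgH.trans hHN
  have hN : 1 ≤ N := hg.trans hgN
  have he1p : 1 ≤ e1 := Nat.pos_of_dvd_of_pos he1 hg
  have he2p : 1 ≤ e2 := Nat.pos_of_dvd_of_pos he2 hg
  have hZ8 : 8 * H * V ^ 2 ≤ Z := by
    have h1 : V ^ 2 ≤ V ^ 4 := Nat.pow_le_pow_right hV (by norm_num)
    have h2 : 1 ≤ R * U ^ 2 * N := Nat.mul_pos (Nat.mul_pos hR (Nat.pow_pos hU)) hN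
    calc 8 * H * V ^ 2 ≤ 8 * H * V ^ 4 := Nat.mul_le_mul_left _ h1
      _ = 8 * (H * V ^ 4) * 1 := by ring
      _ ≤ 2 ^ 10 * (H * V ^ 4) * (R * U ^ 2 * N) :=
          Nat.mul_le_mul (Nat.mul_le_mul_right _ (by norm_num)) h2
      _ = 2 ^ 10 * R * U ^ 2 * V ^ 4 * H * N := by ring
      _ ≤ Z := hZ
  have hZ1 : 1 ≤ Z := by
    have h1 : 1 ≤ 8 * H * V ^ 2 := Nat.mul_pos (Nat.mul_pos (by norm_num) hH) (Nat.pow_pos hV)
    exact h1.trans hZ8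
  have hT1 : 1 ≤ T := by
    have h1 : 0 ≤ Real.log Z := Real.log_nonneg (by exact_mod_cast hZ1)
    linarith
  have hT0 : 0 < T := by linarith
  have hf1 : ((g / e1 : ℕ) : ℝ) = (g : ℝ) / e1 :=
    Nat.cast_div he1 (by exact_mod_cast (show e1 ≠ 0 by omega))
  have hf2 : ((g / e2 : ℕ) : ℝ) = (g : ℝ) / e2 :=
    Nat.cast_div he2 (by exact_mod_cast (show e2 ≠ 0 by omega))
  have hf1p : 1 ≤ g / e1 := Nat.div_pos (Nat.le_of_dvd hg he1) he1p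
  have hf2p : 1 ≤ g / e2 := Nat.div_pos (Nat.le_of_dvd hg he2) he2p
  obtain ⟨O, hO⟩ : ∃ O, O = FIXO N R U e1 e2 := ⟨_, rfl⟩
  obtain ⟨S, hS⟩ : ∃ S, S = FIXI V H g (g / e1) (g / e2) := ⟨_, rfl⟩
  -- Cauchy
  have hCS := cs_abs O S (Finset.Icc (1 : ℤ) N)
    (fun o n => β n * (starRingEnd ℂ) (β (n + o.2.1 * o.1)))
    (fun o n => FIXi N b1 b2 g o.1 o.2.1 n)
    (fun o i n => FIXy N a b1 b2 w g e1 e2 o i n)
    (fun o _ n _ => by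
      rw [norm_mul, RCLike.norm_conj]
      exact mul_le_one₀ (hβ _) (norm_nonneg _) (hβ _))
    (fun o n => by
      unfold FIXi
      split_ifs
      · exact Or.inr rfl
      · exact Or.inl rfl)
    (fun o _ i _ n _ h => FIX_y_ne hG h)
  rw [hO, hS, ← FIX_tot N R U V H β a b1 b2 w g e1 e2 hg, ← hO, ← hS] at hCS
  have hF1 := FIX_F1 (N := N) (R := R) (U := U) (g := g) (e1 := e1) (e2 := e2) (b1 := b1)
    (b2 := b2) hR hU hg hgN he1p he2p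
  rw [← hO] at hF1
  obtain ⟨F1b, hF1b⟩ : ∃ x : ℝ, x = 36 * (N : ℝ) ^ 2 * (U : ℝ) ^ 2 / (g * e1 * e2) := ⟨_, rfl⟩
  rw [← hF1b] at hF1
  have hF1b0 : 0 ≤ F1b := by rw [hF1b]; positivity
  -- the sum over pairs
  have hswap : ∑ o ∈ O, ∑ i ∈ S, ∑ j ∈ S, ‖∑ n ∈ Finset.Icc (1 : ℤ) N,
      FIXy N a b1 b2 w g e1 e2 o i n * (starRingEnd ℂ) (FIXy N a b1 b2 w g e1 e2 o j n)‖ =
      ∑ q ∈ S ×ˢ S, ∑ o ∈ O, ‖∑ n ∈ Finset.Icc (1 : ℤ) N,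
      FIXy N a b1 b2 w g e1 e2 o q.1 n * (starRingEnd ℂ) (FIXy N a b1 b2 w g e1 e2 o q.2 n)‖ := by
    rw [Finset.sum_comm]
    rw [Finset.sum_product]
    refine Finset.sum_congr rfl (fun i _ => ?_)
    rw [Finset.sum_comm]
  obtain ⟨Ob, hOb⟩ : ∃ x : ℝ, x = C1 * T ^ 3 * N * Y * (54 * (N : ℝ) * (U : ℝ) ^ 2 / (e1 * e2) *
    T ^ 3) := ⟨_, rfl⟩
  have hOb0 : 0 ≤ Ob := by rw [hOb]; positivity
  have hdg : ∀ q ∈ S ×ˢ S, ∑ o ∈ O, ‖∑ n ∈ Finset.Icc (1 : ℤ) N,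
      FIXy N a b1 b2 w g e1 e2 o q.1 n *
        (starRingEnd ℂ) (FIXy N a b1 b2 w g e1 e2 o q.2 n)‖ ≤ F1b := fun q _ =>
    (Finset.sum_le_sum (fun o _ => FIX_diag_o hw1 hG)).trans hF1
  have hoff : ∀ q ∈ S ×ˢ S, ¬ (q.1.2.2 * ((q.2.1 : ℤ) * (q.2.2.1 : ℤ)) =
      q.2.2.2 * ((q.1.1 : ℤ) * (q.1.2.1 : ℤ))) → ∑ o ∈ O, ‖∑ n ∈ Finset.Icc (1 : ℤ) N,
      FIXy N a b1 b2 w g e1 e2 o q.1 n *
        (starRingEnd ℂ) (FIXy N a b1 b2 w g e1 e2 o q.2 n)‖ ≤ Ob := by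
    intro q hq hne
    obtain ⟨⟨v1, v2, h⟩, ⟨w1, w2, h'⟩⟩ := q
    rw [Finset.mem_product, hS] at hq
    unfold FIXI at hq
    simp only [Finset.mem_product, Finset.mem_filter] at hq
    obtain ⟨⟨⟨hv1, _⟩, ⟨hv2, _⟩, hh⟩, ⟨hw1', _⟩, ⟨hw2', _⟩, hh'⟩ := hq
    simp only at hne
    obtain ⟨D, hD⟩ : ∃ D : ℤ, D = h * ((w1 : ℤ) * (w2 : ℤ)) - h' * ((v1 : ℤ) * (v2 : ℤ)) :=
      ⟨_, rfl⟩
    have hD0 : D ≠ 0 := by
      rw [hD]
      intro h0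
      exact hne (by linarith)
    have habs : ∀ x ∈ Hr H g, |x| ≤ H := by
      intro x hx
      unfold Hr at hx
      rw [Finset.mem_filter, Finset.mem_Icc] at hx
      exact abs_le.2 ⟨hx.1.1, hx.1.2⟩
    have hprod : ∀ x y z : ℤ, ∀ s t : ℕ, |x| ≤ H → s ∈ Finset.Ioc V (2 * V) →
        t ∈ Finset.Ioc V (2 * V) → |x * ((s : ℤ) * (t : ℤ))| ≤ H * (2 * V * (2 * V)) := by
      intro x y z s t hx hs ht
      rw [Finset.mem_Ioc] at hs ht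
      rw [abs_mul]
      have h1 : |(s : ℤ) * (t : ℤ)| ≤ 2 * V * (2 * V) := by
        rw [abs_of_nonneg (by positivity)]
        have h2 : (s : ℤ) ≤ 2 * V := by exact_mod_cast hs.2
        have h3 : (t : ℤ) ≤ 2 * V := by exact_mod_cast ht.2
        exact mul_le_mul h2 h3 (by positivity) (by positivity)
      exact mul_le_mul hx h1 (abs_nonneg _) (by positivity)
    have hDn : D.natAbs ≤ Z := by
      have h1 := hprod h 0 0 w1 w2 (habs h hh) hw1' hw2'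
      have h2 := hprod h' 0 0 v1 v2 (habs h' hh') hv1 hv2
      have h3 : |D| ≤ 8 * H * V ^ 2 := by
        rw [hD]
        refine (abs_sub _ _).trans ?_
        calc |h * ((w1 : ℤ) * (w2 : ℤ))| + |h' * ((v1 : ℤ) * (v2 : ℤ))|
            ≤ H * (2 * V * (2 * V)) + H * (2 * V * (2 * V)) := add_le_add h1 h2
          _ = 8 * H * V ^ 2 := by ring
      have h4 : (D.natAbs : ℤ) ≤ ((8 * H * V ^ 2 : ℕ) : ℤ) := by
        rw [Int.natCast_natAbs]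
        push_cast
        exact h3
      have h5 : D.natAbs ≤ 8 * H * V ^ 2 := by exact_mod_cast h4
      exact h5.trans hZ8
    have htau : (tau D.natAbs : ℝ) ≤ T := hT _ (Int.natAbs_pos.2 hD0) hDn
    have hF2 := FIX_F2 (N := N) (R := R) (U := U) (e1 := e1) (e2 := e2) hD0 hR hU he1p he2p
    rw [← hO] at hF2
    have hpt : ∀ o ∈ O, ‖∑ n ∈ Finset.Icc (1 : ℤ) N,
        FIXy N a b1 b2 w g e1 e2 o (v1, v2, h) n *
          (starRingEnd ℂ) (FIXy N a b1 b2 w g e1 e2 o (w1, w2, h') n)‖ ≤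
        C1 * T ^ 3 * N * Y * (if o.2.1 ∈ Lr N o.1 then
          ((Int.gcd D (o.1 : ℤ) : ℝ) * (Int.gcd D ((o.2.2.1 / e1 : ℕ) : ℤ) : ℝ) *
            (Int.gcd D ((o.2.2.2 / e2 : ℕ) : ℤ) : ℝ)) else 0) := by
      intro o ho
      rw [hO] at ho
      unfold FIXO at ho
      simp only [Finset.mem_product, Finset.mem_filter] at ho
      obtain ⟨ho1, _, ⟨ho2, _⟩, ho3, _⟩ := ho
      rw [mul_ite, mul_zero]
      refine FIX_off_o (by positivity) hw1 ?_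
      intro k1 k2 k3 k4 k5 k6
      rw [hD]
      exact hss N R U V H Z K B Y T a b1 b2 o.1 o.2.2.1 o.2.2.2 v1 v2 w1 w2 g e1 e2 o.2.1 h h'
        hR hU hV hH hHN hK hKN hK3 hB hY hKB hKY hZ hT hlog ho1 ho2 ho3 hv1 hv2 hw1' hw2'
        (hG _ _ _ _ _ _ _ k5) (hG _ _ _ _ _ _ _ k6) k1 k2 hgH k3.symm k4.symm
        (hwG _ _ _ _ _ _ _ k5).2 (by rw [← hD]; exact hD0)
    refine (Finset.sum_le_sum hpt).trans ?_
    rw [← Finset.mul_sum, hOb]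
    refine mul_le_mul_of_nonneg_left (hF2.trans ?_) (by positivity)
    gcongr
  -- cardinalities
  have hdiag := diag (V := V) (H := H) (g := g) (f1 := g / e1) (f2 := g / e2) (Z := Z) (T := T)
    hg hf1p hf2p hT (by
      refine le_trans ?_ hZ8
      gcongr
      norm_num)
  have hSdef : ((Finset.Ioc V (2 * V)).filter (fun v => g / e1 ∣ v)) ×ˢ
        ((Finset.Ioc V (2 * V)).filter (fun v => g / e2 ∣ v)) ×ˢ Hr H g = S := by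
    rw [hS]; rfl
  rw [hSdef, hf1, hf2] at hdiag
  have hcard : (S.card : ℝ) ≤ (3 * (V : ℝ) / ((g : ℝ) / e1)) *
      ((3 * (V : ℝ) / ((g : ℝ) / e2)) * (2 * (H : ℝ) / g)) := by
    rw [hS]
    unfold FIXI
    rw [Finset.card_product, Finset.card_product]
    push_cast
    have c1 := card_mult (U := V) hf1p
    have c2 := card_mult (U := V) hf2p
    have c3 := card_Hr (H := H) hg
    rw [hf1] at c1
    rw [hf2] at c2
    have p2 : 0 ≤ 3 * (V : ℝ) / ((g : ℝ) / e2) := (Nat.cast_nonneg _).trans c2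
    have p1 : 0 ≤ 3 * (V : ℝ) / ((g : ℝ) / e1) := (Nat.cast_nonneg _).trans c1
    exact mul_le_mul c1 (mul_le_mul c2 c3 (Nat.cast_nonneg _) p2)
      (mul_nonneg (Nat.cast_nonneg _) (Nat.cast_nonneg _)) p1
  have hF2 : ∑ q ∈ S ×ˢ S, ∑ o ∈ O, ‖∑ n ∈ Finset.Icc (1 : ℤ) N,
      FIXy N a b1 b2 w g e1 e2 o q.1 n * (starRingEnd ℂ) (FIXy N a b1 b2 w g e1 e2 o q.2 n)‖ ≤
      (18 * T ^ 2 * ((V : ℝ) / ((g : ℝ) / e1)) * ((V : ℝ) / ((g : ℝ) / e2)) * ((H : ℝ) / g)) * F1b +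
      ((3 * (V : ℝ) / ((g : ℝ) / e1)) *
        ((3 * (V : ℝ) / ((g : ℝ) / e2)) * (2 * (H : ℝ) / g))) ^ 2 * Ob := by
    rw [← Finset.sum_filter_add_sum_filter_not (S ×ˢ S)
      (fun q => q.1.2.2 * ((q.2.1 : ℤ) * (q.2.2.1 : ℤ)) =
        q.2.2.2 * ((q.1.1 : ℤ) * (q.1.2.1 : ℤ)))]
    refine add_le_add ?_ ?_
    · refine (Finset.sum_le_card_nsmul _ _ F1b (fun q hq => ?_)).trans ?_
      · rw [Finset.mem_filter] at hq
        exact hdg q hq.1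
      · rw [nsmul_eq_mul]
        exact mul_le_mul_of_nonneg_right hdiag hF1b0
    · refine (Finset.sum_le_card_nsmul _ _ Ob (fun q hq => ?_)).trans ?_
      · rw [Finset.mem_filter] at hq
        exact hoff q hq.1 hq.2
      · rw [nsmul_eq_mul]
        refine mul_le_mul_of_nonneg_right ?_ hOb0
        have h1 : (((S ×ˢ S).filter (fun q => ¬ (q.1.2.2 * ((q.2.1 : ℤ) * (q.2.2.1 : ℤ)) =
            q.2.2.2 * ((q.1.1 : ℤ) * (q.1.2.1 : ℤ))))).card : ℝ) ≤ ((S ×ˢ S).card : ℝ) := by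
          exact_mod_cast Finset.card_filter_le _ _
        refine h1.trans ?_
        rw [Finset.card_product]
        push_cast
        rw [← sq]
        exact pow_le_pow_left₀ (Nat.cast_nonneg _) hcard 2
  rw [hswap] at hCS
  have hfin : ‖TotG N R U V H β a b1 b2 w g e1 e2‖ ^ 2 ≤ F1b *
      ((18 * T ^ 2 * ((V : ℝ) / ((g : ℝ) / e1)) * ((V : ℝ) / ((g : ℝ) / e2)) * ((H : ℝ) / g)) * F1b +
      ((3 * (V : ℝ) / ((g : ℝ) / e1)) *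
        ((3 * (V : ℝ) / ((g : ℝ) / e2)) * (2 * (H : ℝ) / g))) ^ 2 * Ob) := by
    refine hCS.trans ?_
    refine mul_le_mul hF1 hF2 ?_ hF1b0
    exact Finset.sum_nonneg (fun _ _ => Finset.sum_nonneg (fun _ _ => norm_nonneg _))
  rw [hF1b, hOb] at hfin
  exact FIX_real (by exact_mod_cast hN) (by exact_mod_cast hU) (by exact_mod_cast hV)
    (by exact_mod_cast hH) (by exact_mod_cast hg) (by exact_mod_cast he1p)
    (by exact_mod_cast he2p) hT1 hC1 hY hE hHE hHY (norm_nonneg _) hfin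

end Pool.Agent.BCoreH
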